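import Pool.Agent.Y714.KF.Stm

set_option autoImplicit false
set_option linter.unusedSectionVars false
set_option linter.unusedSimpArgs false

/-! Project KF, job RF2: failure of reducedness at primes larger than `Y`. -/

namespace Pool.Agent.Y158.KF

open NumberField FractionalIdeal Module Finset Pool.Agent.Y714.KF
open scoped nonZeroDivisors

/-- the number of large prime factors is bounded -/
theorem primes_bound (A : ℝ) (e : ℕ) : ∃ k : ℕ, ∀ Y : ℝ, 1 ≤ Y → ∀ D : ℕ, D ≠ 0 →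
    (D : ℝ) ≤ A * Y ^ e → (D.primeFactors.filter fun p : ℕ => Y < (p : ℝ)).card ≤ k := by
  obtain ⟨k1, hk1⟩ := pow_unbounded_of_one_lt A (one_lt_two (α := ℝ))
  refine ⟨e + k1, fun Y hY D hD hle => ?_⟩
  by_contra hcon
  push Not at hcon
  set s := D.primeFactors.filter fun p : ℕ => Y < (p : ℝ) with hs
  have hA : 0 < A := by
    by_contra h0
    push Not at h0
    have h1 : (1 : ℝ) ≤ D := by exact_mod_cast Nat.one_le_iff_ne_zero.2 hD
    have h2 : A * Y ^ e ≤ 0 := mul_nonpos_of_nonpos_of_nonneg h0 (by positivity)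
    linarith
  set Z := max Y 2 with hZ
  have hZ2 : 2 ≤ Z := le_max_right _ _
  have hZY : Y ≤ Z := le_max_left _ _
  have h1 : Z ^ s.card ≤ ∏ p ∈ s, (p : ℝ) := by
    rw [← prod_const]
    refine prod_le_prod (fun _ _ => by positivity) fun p hp => ?_
    rw [hs, mem_filter] at hp
    have h2 : (2 : ℝ) ≤ p := by exact_mod_cast (Nat.prime_of_mem_primeFactors hp.1).two_le
    exact max_le hp.2.le h2
  have h2 : (∏ p ∈ s, (p : ℝ)) ≤ D := by
    have h3 : ∏ p ∈ s, p ≤ D := by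
      refine Nat.le_of_dvd (Nat.pos_of_ne_zero hD) ?_
      exact (prod_dvd_prod_of_subset _ _ _ (filter_subset _ _)).trans (Nat.prod_primeFactors_dvd D)
    have h4 := (Nat.cast_le (α := ℝ)).2 h3
    rwa [Nat.cast_prod] at h4
  have h3 : Z ^ (e + k1) ≤ Z ^ s.card := pow_le_pow_right₀ (by linarith) hcon.le
  have h4 : Z ^ e * 2 ^ k1 ≤ Z ^ (e + k1) := by
    rw [pow_add]
    gcongr
  have h5 : A * Y ^ e ≤ A * Z ^ e := by gcongr
  have h6 : A * Z ^ e < Z ^ e * 2 ^ k1 := by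
    have : 0 < Z ^ e := by positivity
    nlinarith
  linarith

section

variable {K : Type} [Field K] [NumberField K]

theorem sp_unit (u : (𝓞 K)ˣ) : sp (u : K) = 1 := by
  have h1 : sp (u : K) = ((Ideal.span {(u : 𝓞 K)} : Ideal (𝓞 K)) : FI K) := by
    rw [coeIdeal_span_singleton]
  rw [h1, Ideal.span_singleton_eq_top.2 u.isUnit, coeIdeal_top]

theorem Lt_smul_cancel {x : K} (hx : x ≠ 0) {P Q : K × K} (h : Lt (x • P) = Lt (x • Q)) :
    Lt P = Lt Q := by
  ext y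
  have h1 : x * y ∈ Lt (x • P) ↔ x * y ∈ Lt (x • Q) := by rw [h]
  rw [mem_Lt_smul hx, mem_Lt_smul hx, inv_mul_cancel_left₀ hx] at h1
  exact h1

theorem Lt_smul_congr {x : K} (hx : x ≠ 0) {P Q : K × K} (h : Lt P = Lt Q) :
    Lt (x • P) = Lt (x • Q) := by
  ext y
  rw [mem_Lt_smul hx, mem_Lt_smul hx, h]

theorem Lt_neg (P : K × K) : Lt ((-1 : K) • P) = Lt P := by
  ext y
  rw [mem_Lt_smul (neg_ne_zero.2 one_ne_zero), inv_neg, inv_one, neg_one_mul]
  exact neg_mem_iff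

theorem le_add_left' {A B : FI K} : A ≤ A + B := by rw [← sup_eq_add]; exact le_sup_left
theorem le_add_right' {A B : FI K} : B ≤ A + B := by rw [← sup_eq_add]; exact le_sup_right

/-- for a given lattice only boundedly many primes occur -/
theorem key (hodd : Odd (finrank ℚ K)) (hn : 2 ≤ finrank ℚ K) (r : (FI K)ˣ) (A : ℝ)
    (e : ℕ) : ∃ k : ℕ, ∀ Y : ℝ, 1 ≤ Y → ∀ L : Submodule ℤ K, ∃ T : Finset ℕ, T.card ≤ k ∧
      ∀ p : ℕ, p.Prime → Y < p → ∀ Q : K × K, Lt Q = L → ct Q ≤ r → Nd Q →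
        pm (vec Q) ≤ A * Y ^ e → (p : ℚ) ^ 2 * nm (r : FI K) ≤ nm (sp (p : K) * (r : FI K) + sp Q.2) →
        p ∈ T := by
  classical
  obtain ⟨C, hC, hineq⟩ := ineqs (J := K →+* ℂ) (by rw [card_emb]; exact hodd)
  obtain ⟨c, hc, hidx⟩ := exists_index r
  obtain ⟨k, hk⟩ := primes_bound (C * A ^ (finrank ℚ K - 1) / c ^ 2) (e * (finrank ℚ K - 1))
  refine ⟨k, fun Y hY L => ?_⟩
  by_cases hex : ∃ Q : K × K, Lt Q = L ∧ ct Q ≤ r ∧ Nd Q ∧ pm (vec Q) ≤ A * Y ^ e
  · obtain ⟨Q0, hL0, hct0, hNd0, hpm0⟩ := hex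
    obtain ⟨D0, hD0, hprod0, -⟩ := hidx Q0 hct0 hNd0
    refine ⟨D0.primeFactors.filter fun p : ℕ => Y < (p : ℝ), hk Y hY D0 hD0 ?_, ?_⟩
    · have h1 := (hineq (vec Q0) (hNd0.pm_pos hn)).2.2.2
      rw [hprod0, card_emb] at h1
      have h2 : pm (vec Q0) ^ (finrank ℚ K - 1) ≤ (A * Y ^ e) ^ (finrank ℚ K - 1) :=
        pow_le_pow_left₀ (pm_nonneg _) hpm0 _
      have h3 : (c * D0) ^ 2 ≤ C * (A * Y ^ e) ^ (finrank ℚ K - 1) := h1.trans (by gcongr)
      have h4 : (1 : ℝ) ≤ D0 := by exact_mod_cast Nat.one_le_iff_ne_zero.2 hD0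
      have h5 : (D0 : ℝ) ≤ (D0 : ℝ) ^ 2 := by nlinarith
      rw [div_mul_eq_mul_div, le_div_iff₀ (by positivity)]
      have h6 : C * A ^ (finrank ℚ K - 1) * Y ^ (e * (finrank ℚ K - 1)) =
          C * (A * Y ^ e) ^ (finrank ℚ K - 1) := by
        rw [mul_pow, ← pow_mul]; ring
      rw [h6]
      calc (D0 : ℝ) * c ^ 2 ≤ (D0 : ℝ) ^ 2 * c ^ 2 := by gcongr
        _ = (c * D0) ^ 2 := by ring
        _ ≤ _ := h3
    · intro p hp hpY Q hL hct hNd hpm hC2
      obtain ⟨D, hD, hprod, hcr⟩ := hidx Q hct hNd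
      have hdvd : p ∣ D := prime_dvd_index hp hn hct (Units.ne_zero r) hC2 D hcr
      have h1 := (Lt_inv hodd hn hNd0 (hNd.ind hn) (hL0.trans hL.symm)).2.2.2
      rw [hprod, hprod0] at h1
      have h2 : c * D = c * D0 :=
        (pow_left_inj₀ (by positivity) (by positivity) two_ne_zero).1 h1
      have h3 : D = D0 := by exact_mod_cast mul_left_cancel₀ hc.ne' h2
      rw [mem_filter, Nat.mem_primeFactors]
      exact ⟨⟨hp, h3 ▸ hdvd, hD0⟩, hpY⟩
  · exact ⟨∅, by simp, fun p _ _ Q h1 h2 h3 h4 _ => (hex ⟨Q, h1, h2, h3, h4⟩).elim⟩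

/-- the transformed pair -/
theorem facts (hn : 5 ≤ finrank ℚ K) {m : ℕ}
    (hm : 2 * m = finrank ℚ K + 1) {I : (FI K)ˣ} {Y : ℝ} (hY : 1 ≤ Y) {p : ℕ} (hp : p.Prime)
    (hpY : Y < p) {x y : K} (hNd : Nd (x, y)) (hct : ct (x, y) ≤ I)
    (hpm : pm (vec (x, y)) ≤ Y ^ (2 * finrank ℚ K)) {J : FI K}
    (hJ : J = sp (p : K) * (I : FI K) + sp x) (hJn : nm J = (p : ℚ) ^ m * nm (I : FI K))
    {a : K} (ha : a ≠ 0) {r : (FI K)ˣ} (hr : J = sp a * (r : FI K)) (u : (𝓞 K)ˣ) {Q : K × K}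
    (hQ : Q = (u : K) • (a⁻¹ • (x, (p : K) * y))) :
    Nd Q ∧ ct Q ≤ r ∧
    pm (vec Q) ≤ (((nm (r : FI K) : ℚ) : ℝ) ^ 2 / ((nm (I : FI K) : ℚ) : ℝ) ^ 2) *
      Y ^ (2 * finrank ℚ K - 1) ∧
    (p : ℚ) ^ 2 * nm (r : FI K) ≤ nm (sp (p : K) * (r : FI K) + sp Q.2) := by
  have hp0 : (p : K) ≠ 0 := by exact_mod_cast hp.ne_zero
  have hu0 : (u : K) ≠ 0 := Units.coe_ne_zero u
  have hai : a⁻¹ ≠ 0 := inv_ne_zero ha
  have hmat : (x, (p : K) * y) = (((1 : ℚ) : K) * (x, y).1 + ((0 : ℚ) : K) * (x, y).2,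
      ((0 : ℚ) : K) * (x, y).1 + ((p : ℚ) : K) * (x, y).2) := by simp
  have hIpos : 0 < nm (I : FI K) := nm_pos (Units.ne_zero I)
  have hrpos : 0 < nm (r : FI K) := nm_pos (Units.ne_zero r)
  have hapos : 0 < nm (sp a) := nm_pos (sp_ne ha)
  have hpq : (0 : ℚ) < p := by exact_mod_cast hp.pos
  have hnJ : nm (sp a) * nm (r : FI K) = (p : ℚ) ^ m * nm (I : FI K) := by
    rw [← hJn, hr, nm, nm, nm, map_mul]
  have hspa : sp a⁻¹ * sp a = 1 := by
    rw [← sp_mul, inv_mul_cancel₀ ha]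
    exact spanSingleton_one
  have hnai : nm (sp a⁻¹) * nm (sp a) = 1 := by
    rw [nm, nm, ← map_mul, hspa, map_one]
  have hJr : sp a⁻¹ * J = (r : FI K) := by
    rw [hr, ← mul_assoc, hspa, one_mul]
  obtain ⟨hx, hy⟩ := ct_le.1 hct
  have hx' : sp x ≤ (I : FI K) := sp_le.2 hx
  have hy' : sp y ≤ (I : FI K) := sp_le.2 hy
  have hpI : sp (p : K) * (I : FI K) ≤ I := by
    calc sp (p : K) * (I : FI K) ≤ 1 * I := by gcongr; exact sp_natCast_le_one p
      _ = I := one_mul _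
  have hJI : J ≤ I := by
    rw [hJ, ← sup_eq_add]
    exact sup_le hpI hx'
  refine ⟨?_, ?_, ?_, ?_⟩
  · rw [hQ]
    refine Nd.smul (Nd.smul ?_ hai) hu0
    rw [hmat]
    exact hNd.gl (by simpa using hp.ne_zero)
  · rw [hQ, ct_smul, ct_smul, sp_unit, one_mul, ← hJr]
    gcongr
    rw [hJ]
    change sp x + sp ((p : K) * y) ≤ _
    rw [← sup_eq_add]
    refine sup_le le_add_right' ?_
    rw [sp_mul]
    refine le_trans ?_ le_add_left'
    gcongr
  · rw [hQ, pm_vec_smul, pm_vec_smul, sp_unit, hmat, pm_vec_gl]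
    have e1 : |((1 : ℚ) : ℝ) * ((p : ℚ) : ℝ) - ((0 : ℚ) : ℝ) * ((0 : ℚ) : ℝ)| = (p : ℝ) := by
      simp
    rw [e1]
    have e2 : ((nm (1 : FI K) : ℚ) : ℝ) = 1 := by rw [nm, map_one]; simp
    rw [e2, one_pow, one_mul]
    have f1 : (0 : ℝ) < ((nm (I : FI K) : ℚ) : ℝ) := by exact_mod_cast hIpos
    have f2 : (0 : ℝ) < ((nm (r : FI K) : ℚ) : ℝ) := by exact_mod_cast hrpos
    have f3 : (0 : ℝ) < ((nm (sp a) : ℚ) : ℝ) := by exact_mod_cast hapos
    have f4 : (0 : ℝ) < p := by exact_mod_cast hp.pos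
    have f5 : ((nm (sp a⁻¹) : ℚ) : ℝ) * ((nm (sp a) : ℚ) : ℝ) = 1 := by exact_mod_cast hnai
    have f6 : ((nm (sp a) : ℚ) : ℝ) * ((nm (r : FI K) : ℚ) : ℝ) =
        (p : ℝ) ^ m * ((nm (I : FI K) : ℚ) : ℝ) := by exact_mod_cast hnJ
    set α := ((nm (sp a) : ℚ) : ℝ)
    set β := ((nm (sp a⁻¹) : ℚ) : ℝ)
    set ρ := ((nm (r : FI K) : ℚ) : ℝ)
    set ν := ((nm (I : FI K) : ℚ) : ℝ)
    have g1 : β * ((p : ℝ) ^ m * ν) = ρ := by
      rw [← f6, ← mul_assoc, f5, one_mul]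
    have g2 : β ^ 2 * (p : ℝ) ^ finrank ℚ K = ρ ^ 2 / ν ^ 2 / p := by
      rw [div_div, eq_div_iff (by positivity), ← g1]
      have : (p : ℝ) ^ m * (p : ℝ) ^ m = (p : ℝ) ^ finrank ℚ K * p := by
        rw [← pow_add, ← two_mul, hm, pow_succ]
      calc β ^ 2 * (p : ℝ) ^ finrank ℚ K * (ν ^ 2 * p) =
          β ^ 2 * ν ^ 2 * ((p : ℝ) ^ finrank ℚ K * p) := by ring
        _ = β ^ 2 * ν ^ 2 * ((p : ℝ) ^ m * (p : ℝ) ^ m) := by rw [this]
        _ = _ := by ring
    have g3 : Y ^ (2 * finrank ℚ K) = Y ^ (2 * finrank ℚ K - 1) * Y := by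
      rw [← pow_succ]; congr 1; omega
    calc β ^ 2 * ((p : ℝ) ^ finrank ℚ K * pm (vec (x, y))) =
        (β ^ 2 * (p : ℝ) ^ finrank ℚ K) * pm (vec (x, y)) := by ring
      _ ≤ (ρ ^ 2 / ν ^ 2 / p) * Y ^ (2 * finrank ℚ K) := by rw [g2]; gcongr
      _ = (ρ ^ 2 / ν ^ 2) * Y ^ (2 * finrank ℚ K - 1) * (Y / p) := by rw [g3]; ring
      _ ≤ (ρ ^ 2 / ν ^ 2) * Y ^ (2 * finrank ℚ K - 1) * 1 := by
          gcongr
          rw [div_le_one f4]
          exact hpY.le
      _ = _ := mul_one _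
  · have e1 : Q.2 = (u : K) * (a⁻¹ * ((p : K) * y)) := by rw [hQ]; rfl
    have e2 : sp (p : K) * (r : FI K) + sp Q.2 = sp (p : K) * sp a⁻¹ * (J + sp y) := by
      rw [e1, sp_mul, sp_mul, sp_mul, sp_unit, ← hJr]
      ring
    have hJy : J + sp y ≤ I := by
      rw [← sup_eq_add]
      exact sup_le hJI hy'
    have hJ0 : J ≠ 0 := by
      rw [hr]
      exact mul_ne_zero (sp_ne ha) (Units.ne_zero r)
    have hJy0 : J + sp y ≠ 0 := by
      intro h0
      have : J ≤ J + sp y := le_add_left'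
      rw [h0] at this
      exact hJ0 (le_antisymm this (zero_le _))
    have h1 := nm_anti hJy0 hJy
    have h2 : nm (sp (p : K) * sp a⁻¹ * (J + sp y)) =
        (p : ℚ) ^ finrank ℚ K * nm (sp a⁻¹) * nm (J + sp y) := by
      rw [nm, nm, nm, map_mul, map_mul]
      have h2 : absNorm (sp (p : K)) = (p : ℚ) ^ finrank ℚ K := nm_natCast p
      rw [h2]
    rw [e2, h2]
    have h3 : nm (r : FI K) = nm (sp a⁻¹) * ((p : ℚ) ^ m * nm (I : FI K)) := by
      rw [← hnJ, ← mul_assoc, hnai, one_mul]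
    have h4 : 0 < nm (sp a⁻¹) := nm_pos (sp_ne hai)
    have h5 : (p : ℚ) ^ (2 + m) ≤ (p : ℚ) ^ finrank ℚ K := by
      refine pow_le_pow_right₀ (by exact_mod_cast hp.one_le) (by omega)
    calc (p : ℚ) ^ 2 * nm (r : FI K) = (p : ℚ) ^ (2 + m) * nm (sp a⁻¹) * nm (I : FI K) := by
          rw [h3, pow_add]; ring
      _ ≤ (p : ℚ) ^ finrank ℚ K * nm (sp a⁻¹) * nm (J + sp y) := by gcongr

/-- normalisation of the transformed pair before scaling -/
theorem nz_mul (hodd : Odd (finrank ℚ K)) (hn : 2 ≤ finrank ℚ K) {κ : Fin (Units.rank K) → ℝ}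
    {p : ℕ} (hp : p.Prime) {x y : K} (hNd : Nd (x, y)) (hNz : Nz κ (vec (x, y))) :
    Nd (x, (p : K) * y) ∧ Nz κ (vec (x, (p : K) * y)) := by
  have hmat : (x, (p : K) * y) = (((1 : ℚ) : K) * (x, y).1 + ((0 : ℚ) : K) * (x, y).2,
      ((0 : ℚ) : K) * (x, y).1 + ((p : ℚ) : K) * (x, y).2) := by simp
  have hdet : (1 : ℚ) * (p : ℚ) - 0 * 0 ≠ 0 := by simpa using hp.ne_zero
  refine ⟨?_, ?_⟩
  · rw [hmat]
    exact hNd.gl hdet
  · unfold Nz
    rw [hmat, cc_vec_gl hodd 1 0 0 p hdet (x, y) (hNd.pm_pos hn)]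
    exact hNz

/-- uniqueness of the lattice -/
theorem uniq (h5 : S_SUPI K) (hodd : Odd (finrank ℚ K)) (hn : 5 ≤ finrank ℚ K) {m : ℕ}
    (hm : 2 * m = finrank ℚ K + 1) {I : (FI K)ˣ} {κ : Fin (Units.rank K) → ℝ} {p : ℕ}
    (hp : p.Prime) {x y x' y' : K} (hNd : Nd (x, y)) (hNd' : Nd (x', y')) (hct : ct (x, y) ≤ I)
    (hct' : ct (x', y') ≤ I) (hNz : Nz κ (vec (x, y))) (hNz' : Nz κ (vec (x', y')))
    (hJn : nm (sp (p : K) * (I : FI K) + sp x) = (p : ℚ) ^ m * nm (I : FI K))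
    {a : K} (ha : a ≠ 0) (u u' : (𝓞 K)ˣ)
    (hL : Lt ((u : K) • (a⁻¹ • (x, (p : K) * y))) = Lt ((u' : K) • (a⁻¹ • (x', (p : K) * y')))) :
    Lt (x, y) = Lt (x', y') := by
  have hn2 : 2 ≤ finrank ℚ K := by omega
  have hai : a⁻¹ ≠ 0 := inv_ne_zero ha
  have hu0 : (u : K) ≠ 0 := Units.coe_ne_zero u
  have hu0' : (u' : K) ≠ 0 := Units.coe_ne_zero u'
  obtain ⟨n1, n2⟩ := nz_mul hodd hn2 hp hNd hNz
  obtain ⟨n1', n2'⟩ := nz_mul hodd hn2 hp hNd' hNz'
  set w : (𝓞 K)ˣ := u'⁻¹ * u with hw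
  have hwK : (u : K) = (u' : K) * (w : K) := by
    have h1 : (u : 𝓞 K) = (u' : 𝓞 K) * (w : 𝓞 K) := by
      rw [hw, Units.val_mul, ← mul_assoc, Units.mul_inv, one_mul]
    have := congrArg (algebraMap (𝓞 K) K) h1
    rw [map_mul] at this
    exact this
  have e1 : (u : K) • (a⁻¹ • (x, (p : K) * y)) =
      ((u' : K) * a⁻¹) • ((w : K) • (x, (p : K) * y)) := by
    rw [smul_smul, smul_smul, hwK]
    congr 1
    ring
  rw [e1, smul_smul (u' : K)] at hL
  have h1 := Lt_smul_cancel (mul_ne_zero hu0' hai) hL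
  have hw0 : (w : K) ≠ 0 := Units.coe_ne_zero w
  have hNdw : Nd ((w : K) • (x, (p : K) * y)) := n1.smul hw0
  have h2 := (Lt_inv hodd hn2 n1' (hNdw.ind hn2) h1.symm).2.2.1
  have h3 : Nz κ (fun σ => σ (w : K) • vec (x, (p : K) * y) σ) := by
    rw [← vec_smul]
    unfold Nz
    rw [h2]
    exact n2'
  obtain ⟨C, _, hC⟩ := ineqs (J := K →+* ℂ) (by rw [card_emb]; exact hodd)
  have h4 : w = 1 ∨ w = -1 := unit_nz_unique (n1.pm_pos hn2)
    (hC _ (n1.pm_pos hn2)).1 hodd κ w n2 h3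
  have h5' : Lt (x, (p : K) * y) = Lt (x', (p : K) * y') := by
    rcases h4 with h | h
    · rw [← h1, h]
      simp
    · rw [← h1, h]
      have : (algebraMap (𝓞 K) K) ((-1 : (𝓞 K)ˣ) : 𝓞 K) = -1 := by
        rw [Units.val_neg, Units.val_one, map_neg, map_one]
      rw [this, Lt_neg]
  refine h5 p hp I x y x' y' (hNd.ind hn2) (hNd'.ind hn2) hct hct' h5' ?_
  intro h0
  rw [h0, nm, map_mul] at hJn
  have h6 : absNorm (sp (p : K)) = (p : ℚ) ^ finrank ℚ K := nm_natCast p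
  rw [h6] at hJn
  have h7 := mul_right_cancel₀ (nm_pos (Units.ne_zero I)).ne' hJn
  have h8 : finrank ℚ K = m := by
    have h9 : (p : ℕ) ^ finrank ℚ K = p ^ m := by exact_mod_cast h7
    exact Nat.pow_right_injective hp.two_le h9
  omega

theorem Ind_of_Lt {P Q : K × K} (hP : Ind P) (h : Lt Q = Lt P) : Ind Q := by
  obtain ⟨a, b, h1⟩ := mem_Lt.1 (h ▸ fst_mem_Lt P)
  obtain ⟨c, d, h2⟩ := mem_Lt.1 (h ▸ snd_mem_Lt P)
  intro α β h0
  set s : ℚ := α * b - β * a with hs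
  set t : ℚ := α * d - β * c with ht
  have hsK : (s : K) = α * b - β * a := by rw [hs]; push_cast; ring
  have htK : (t : K) = α * d - β * c := by rw [ht]; push_cast; ring
  have e1 : (α : K) * P.1 = s * Q.2 := by rw [hsK, ← h1]; linear_combination (a : K) * h0
  have e2 : (α : K) * P.2 = t * Q.2 := by rw [htK, ← h2]; linear_combination (c : K) * h0
  have e3 : (β : K) * P.1 = -s * Q.1 := by rw [hsK, ← h1]; linear_combination (b : K) * h0
  have e4 : (β : K) * P.2 = -t * Q.1 := by rw [htK, ← h2]; linear_combination (d : K) * h0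
  have e5 : (α : K) * (t * P.1 - s * P.2) = 0 := by linear_combination (t : K) * e1 - (s : K) * e2
  have e6 : (β : K) * (t * P.1 - s * P.2) = 0 := by linear_combination (t : K) * e3 - (s : K) * e4
  by_cases h3 : (t : K) * P.1 - s * P.2 = 0
  · have h4 := hP t (-s) (by push_cast; linear_combination h3)
    have ht0 : t = 0 := h4.1
    have hs0 : s = 0 := by simpa using h4.2
    rw [hs0] at e1 e3
    simp only [Rat.cast_zero, zero_mul, neg_zero] at e1 e3
    exact ⟨by exact_mod_cast (mul_eq_zero.1 e1).resolve_right hP.fst,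
      by exact_mod_cast (mul_eq_zero.1 e3).resolve_right hP.fst⟩
  · exact ⟨by exact_mod_cast (mul_eq_zero.1 e5).resolve_right h3,
      by exact_mod_cast (mul_eq_zero.1 e6).resolve_right h3⟩

theorem rf2 (h1 : S_CR K) (h2 : S_DIV K) (h3 : S_CLS K) (h4 : S_BAS K) (h5 : S_SUPI K) :
    S_RF2 K := by
  classical
  intro hodd hn κ I
  have hn2 : 2 ≤ finrank ℚ K := by omega
  have hn3 : 3 ≤ finrank ℚ K := by omega
  obtain ⟨m, hm⟩ : ∃ m, 2 * m = finrank ℚ K + 1 := by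
    obtain ⟨k, hk⟩ := hodd
    exact ⟨k + 1, by omega⟩
  obtain ⟨C, hC, hCR⟩ := h1 hodd hn3 κ
  obtain ⟨R, hR, -⟩ := h3
  have hrep : ∀ J : FI K, ∃ r ∈ R, ∃ a : K, a ≠ 0 ∧ (J ≠ 0 → J = sp a * (r : FI K)) := by
    intro J
    by_cases hJ : J = 0
    · obtain ⟨r, hr, -⟩ := hR 1
      exact ⟨r, hr, 1, one_ne_zero, fun h => absurd hJ h⟩
    · obtain ⟨r, hr, a, ha, h⟩ := hR (Units.mk0 J hJ)
      exact ⟨r, hr, a, ha, fun _ => h⟩
  choose rr hrR aa haa hJa using hrep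
  set ν : ℝ := ((nm (I : FI K) : ℚ) : ℝ) with hν
  have hνpos : 0 < ν := by
    have : 0 < nm (I : FI K) := nm_pos (Units.ne_zero I)
    rw [hν]
    exact_mod_cast this
  set A : (FI K)ˣ → ℝ := fun r => ((nm (r : FI K) : ℚ) : ℝ) ^ 2 / ν ^ 2 with hAdef
  have hρ : ∀ r : (FI K)ˣ, (0 : ℝ) < ((nm (r : FI K) : ℚ) : ℝ) := by
    intro r
    have : 0 < nm (r : FI K) := nm_pos (Units.ne_zero r)
    exact_mod_cast this
  have hA : ∀ r, 0 < A r := fun r => by
    have := hρ r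
    simp only [hAdef]
    positivity
  choose k hk using fun r : (FI K)ˣ => key hodd hn2 r (A r) (2 * finrank ℚ K - 1)
  set k0 := R.sup k with hk0
  set N := 2 ^ finrank ℚ K * k0 with hN
  refine ⟨R.card * N * C / ν ^ 2 + 1, by positivity, fun Y hY => ?_⟩
  set S := {M ∈ SL κ (I : FI K) (Y ^ (2 * finrank ℚ K)) | ∃ p : ℕ, p.Prime ∧ Y < p ∧
      ∃ m, 2 * m = finrank ℚ K + 1 ∧ Rf p m I M} with hS
  have hSfin : S.Finite := ((hCR I (Y ^ (2 * finrank ℚ K)) (by positivity)).1).subset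
    fun M hM => hM.1
  have hdat : ∀ M, ∃ (p : ℕ) (x y : K) (u : (𝓞 K)ˣ), M ∈ S → p.Prime ∧ Y < p ∧
      Lt (x, y) = M ∧ Nd (x, y) ∧ ct (x, y) ≤ I ∧ Nz κ (vec (x, y)) ∧
      pm (vec (x, y)) ≤ Y ^ (2 * finrank ℚ K) ∧
      nm (sp (p : K) * (I : FI K) + sp x) = (p : ℚ) ^ m * nm (I : FI K) ∧
      Nz κ (vec ((u : K) • ((aa (sp (p : K) * (I : FI K) + sp x))⁻¹ • (x, (p : K) * y)))) := by
    intro M
    by_cases hM : M ∈ S
    · obtain ⟨⟨P, rfl, hct, hNd, hNz, hpm⟩, p, hp, hpY, m', hm', hRf⟩ := hM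
      obtain rfl : m' = m := by omega
      obtain ⟨x, y, hL, hJn⟩ := h4 p hp m' I P (hNd.ind hn2) hct hRf
      have hind : Ind (x, y) := Ind_of_Lt (hNd.ind hn2) hL
      obtain ⟨i1, i2, i3, -⟩ := Lt_inv hodd hn2 hNd hind hL.symm
      have hNz' : Nz κ (vec (x, y)) := by
        unfold Nz
        rw [i3]
        exact hNz
      obtain ⟨n1, n2⟩ := nz_mul hodd hn2 hp i1 hNz'
      have n3 : Nd ((aa (sp (p : K) * (I : FI K) + sp x))⁻¹ • (x, (p : K) * y)) :=
        n1.smul (inv_ne_zero (haa _))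
      obtain ⟨C', _, hC'⟩ := ineqs (J := K →+* ℂ) (by rw [card_emb]; exact hodd)
      obtain ⟨u, hu⟩ := exists_unit_nz (n3.pm_pos hn2) (hC' _ (n3.pm_pos hn2)).1 κ
      refine ⟨p, x, y, u, fun _ => ⟨hp, hpY, hL, i1, ?_, hNz', ?_, hJn, ?_⟩⟩
      · rw [ct_congr hL]; exact hct
      · rw [i2]; exact hpm
      · rw [vec_smul]
        exact hu
    · exact ⟨0, 0, 0, 1, fun h => absurd h hM⟩
  choose p x y u hD using hdat
  set J : Submodule ℤ K → FI K := fun M => sp (p M : K) * (I : FI K) + sp (x M) with hJ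
  set Q : Submodule ℤ K → K × K := fun M =>
    (u M : K) • ((aa (J M))⁻¹ • (x M, (p M : K) * y M)) with hQ
  have hJne : ∀ M ∈ S, J M ≠ 0 := by
    intro M hM h0
    obtain ⟨d1, -, -, -, -, -, -, d8, -⟩ := hD M hM
    have h6 : nm (J M) = (p M : ℚ) ^ m * nm (I : FI K) := d8
    rw [h0, nm, map_zero] at h6
    have h7 : 0 < nm (I : FI K) := nm_pos (Units.ne_zero I)
    have h8 : (0 : ℚ) < p M := by exact_mod_cast d1.pos
    have : 0 < (p M : ℚ) ^ m * nm (I : FI K) := by positivity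
    linarith
  have hfacts : ∀ M ∈ S, Nd (Q M) ∧ ct (Q M) ≤ rr (J M) ∧
      pm (vec (Q M)) ≤ A (rr (J M)) * Y ^ (2 * finrank ℚ K - 1) ∧
      (p M : ℚ) ^ 2 * nm (rr (J M) : FI K) ≤ nm (sp (p M : K) * (rr (J M) : FI K) + sp (Q M).2) := by
    intro M hM
    obtain ⟨d1, d2, d3, d4, d5, d6, d7, d8, d9⟩ := hD M hM
    exact facts hn hm hY d1 d2 d4 d5 d7 (J := J M) rfl d8 (haa _) (hJa _ (hJne M hM)) (u M) rfl
  set Sf := hSfin.toFinset with hSf
  have hmem : ∀ M, M ∈ Sf ↔ M ∈ S := fun M => hSfin.mem_toFinset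
  have hbound : ∀ r ∈ R, ((Sf.filter fun M => rr (J M) = r).card : ℝ) ≤
      N * (C * Y ^ (2 * finrank ℚ K - 1) / ν ^ 2) := by
    intro r hr
    have hYt : 0 < A r * Y ^ (2 * finrank ℚ K - 1) := by
      have := hA r
      positivity
    obtain ⟨hfin, hcard⟩ := hCR r _ hYt
    have hstep : (Sf.filter fun M => rr (J M) = r).card ≤ N * hfin.toFinset.card := by
      refine card_le_mul_card_image_of_maps_to (f := fun M => Lt (Q M)) ?_ N ?_
      · intro M hM
        rw [mem_filter, hmem] at hM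
        obtain ⟨hM1, hM2⟩ := hM
        obtain ⟨f1, f2, f3, -⟩ := hfacts M hM1
        rw [hM2] at f2 f3
        rw [hfin.mem_toFinset]
        exact ⟨Q M, rfl, f2, f1, (hD M hM1).2.2.2.2.2.2.2.2, f3⟩
      · intro L _
        obtain ⟨T, hT, hTp⟩ := hk r Y hY L
        have hstep2 : ((Sf.filter fun M => rr (J M) = r).filter fun M => Lt (Q M) = L).card ≤
            2 ^ finrank ℚ K * T.card := by
          refine card_le_mul_card_image_of_maps_to (f := fun M => p M) ?_ _ ?_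
          · intro M hM
            rw [mem_filter, mem_filter, hmem] at hM
            obtain ⟨⟨hM1, hM2⟩, hM3⟩ := hM
            obtain ⟨f1, f2, f3, f4⟩ := hfacts M hM1
            rw [hM2] at f2 f3 f4
            obtain ⟨d1, d2, -⟩ := hD M hM1
            exact hTp (p M) d1 d2 (Q M) hM3 f2 f1 f3 f4
          · intro q _
            by_cases hq : q.Prime
            · obtain ⟨g1, g2⟩ := h2 q hq I
              rw [Set.ncard_eq_toFinset_card _ g1] at g2
              refine le_trans (card_le_card_of_injOn (fun M => J M) ?_ ?_) g2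
              · intro M hM
                have hM := Finset.mem_coe.1 hM
                rw [mem_filter, mem_filter, mem_filter, hmem] at hM
                obtain ⟨⟨⟨hM1, hM2⟩, hM3⟩, hM4⟩ := hM
                obtain ⟨d1, d2, d3, d4, d5, -⟩ := hD M hM1
                rw [Finset.mem_coe, g1.mem_toFinset]
                refine ⟨?_, ?_⟩
                · rw [← hM4]
                  exact le_add_left'
                · simp only [hJ]
                  rw [← sup_eq_add]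
                  refine sup_le ?_ (sp_le.2 (ct_le.1 d5).1)
                  calc sp (p M : K) * (I : FI K) ≤ 1 * I := by
                        gcongr; exact sp_natCast_le_one (p M)
                    _ = I := one_mul _
              · intro M hM M' hM' hJJ
                have hM := Finset.mem_coe.1 hM
                have hM' := Finset.mem_coe.1 hM'
                rw [mem_filter, mem_filter, mem_filter, hmem] at hM hM'
                obtain ⟨⟨⟨hM1, hM2⟩, hM3⟩, hM4⟩ := hM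
                obtain ⟨⟨⟨hM1', hM2'⟩, hM3'⟩, hM4'⟩ := hM'
                obtain ⟨d1, d2, d3, d4, d5, d6, d7, d8, d9⟩ := hD M hM1
                obtain ⟨d1', d2', d3', d4', d5', d6', d7', d8', d9'⟩ := hD M' hM1'
                have hpp : p M' = p M := by rw [hM4', hM4]
                have hL : Lt ((u M : K) • ((aa (J M))⁻¹ • (x M, (p M : K) * y M))) =
                    Lt ((u M' : K) • ((aa (J M))⁻¹ • (x M', (p M : K) * y M'))) := by
                  have : Lt (Q M) = Lt (Q M') := by rw [hM3, hM3']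
                  simp only [hQ] at this
                  rw [this]
                  have hJJ' : J M = J M' := hJJ
                  rw [hJJ', hpp]
                have := uniq h5 hodd hn hm d1 d4 d4' d5 d5' d6 d6' d8 (haa _) (u M) (u M') hL
                rw [← d3, ← d3', this]
            · rw [card_eq_zero.2]
              · exact Nat.zero_le _
              · rw [filter_eq_empty_iff]
                intro M hM hMq
                rw [mem_filter, mem_filter, hmem] at hM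
                exact hq (hMq ▸ (hD M hM.1.1).1)
        refine hstep2.trans ?_
        rw [hN]
        refine Nat.mul_le_mul_left _ (hT.trans ?_)
        exact le_sup (f := k) hr
    have hcard' : (hfin.toFinset.card : ℝ) ≤ C * Y ^ (2 * finrank ℚ K - 1) / ν ^ 2 := by
      rw [← Set.ncard_eq_toFinset_card _ hfin]
      refine hcard.trans (le_of_eq ?_)
      have := hρ r
      simp only [hAdef]
      field_simp
    calc ((Sf.filter fun M => rr (J M) = r).card : ℝ) ≤ ((N * hfin.toFinset.card : ℕ) : ℝ) := by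
          exact_mod_cast hstep
      _ = N * (hfin.toFinset.card : ℝ) := by push_cast; ring
      _ ≤ _ := by gcongr
  have htot : (Sf.card : ℝ) ≤ R.card * (N * (C * Y ^ (2 * finrank ℚ K - 1) / ν ^ 2)) := by
    rw [card_eq_sum_card_fiberwise (f := fun M => rr (J M)) (t := R) (fun M _ => hrR _)]
    rw [Nat.cast_sum, ← nsmul_eq_mul]
    exact sum_le_card_nsmul _ _ _ hbound
  rw [Set.ncard_eq_toFinset_card _ hSfin]
  refine htot.trans ?_
  have hYY : Y ^ (2 * finrank ℚ K) / Y = Y ^ (2 * finrank ℚ K - 1) := by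
    rw [div_eq_iff (by positivity), ← pow_succ]
    congr 1
    omega
  rw [mul_div_assoc ((R.card : ℝ) * N * C / ν ^ 2 + 1), hYY]
  have hYp : 0 < Y ^ (2 * finrank ℚ K - 1) := by positivity
  calc (R.card : ℝ) * (N * (C * Y ^ (2 * finrank ℚ K - 1) / ν ^ 2)) =
      (R.card * N * C / ν ^ 2) * Y ^ (2 * finrank ℚ K - 1) := by ring
    _ ≤ _ := by
        gcongr
        linarith

end

end Pool.Agent.Y158.KF
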